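import Pool.Agent.Lib.MP_d50811_al.Main

/-!
# Simple groups with a compressible action which is locally transitive somewhere

A finitely generated simple group which acts faithfully by homeomorphisms on a Hausdorff space,
such that every closed proper subset can be moved into every nonempty open subset and such that
the elements which are the identity near some point act topologically transitively on some
nonempty open set, is generated by two elements.
-/

namespace Pool.Agent.Results.MP_d50811_al.Compressible

/-- **Theorem.** A finitely generated simple group with such an action is 2-generated. -/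
theorem result {G X : Type*} [Group G] [IsSimpleGroup G] (hfg : Group.FG G)
    [TopologicalSpace X] [T2Space X] [MulAction G X] [ContinuousConstSMul G X]
    [FaithfulSMul G X]
    (h₁ : ∀ C U : Set X, IsClosed C → C ≠ Set.univ → IsOpen U → U.Nonempty →
      ∃ g : G, ∀ x ∈ C, g • x ∈ U)
    (x₀ : X) (O : Set X) (hO : IsOpen O) (hne : O.Nonempty)
    (h₂ : ∀ U V : Set X, IsOpen U → IsOpen V → U.Nonempty → V.Nonempty → U ⊆ O → V ⊆ O →
      ∃ g : G, (∃ N : Set X, IsOpen N ∧ x₀ ∈ N ∧ ∀ x ∈ N, g • x = x) ∧ ∃ x ∈ U, g • x ∈ V) :
    ∃ a b : G, Subgroup.closure {a, b} = ⊤ :=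
  Pool.Agent.Lib.MP_d50811_al.two_generated hfg h₁ hO hne h₂

end Pool.Agent.Results.MP_d50811_al.Compressible
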